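import Mathlib
import Pool.Agent.H66.Edm.Main
import Pool.Agent.H66.Edm.Grade
import Pool.Agent.H66.Edm.Sound

set_option autoImplicit false

namespace Pool.Agent.Results.MP_966f71_lc.CommutatorClosed

/-- The iterated commutator `[x₁, [x₂, ... [x_m, y]]]` of matrices, where `xs = [x₁, ..., x_m]`. -/
def iterComm {F : Type} [Field F] {n : ℕ} (xs : List (Matrix (Fin n) (Fin n) F))
    (y : Matrix (Fin n) (Fin n) F) : Matrix (Fin n) (Fin n) F :=
  xs.foldr (fun x z => x * z - z * x) y

/-- `V` is closed under `(m+1)`-fold commutators: `[x₁, [x₂, ... [x_m, y]]] ∈ V` for all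
`x₁, ..., x_m, y ∈ V`. -/
def CommClosed {F : Type} [Field F] {n : ℕ} (m : ℕ)
    (V : Submodule F (Matrix (Fin n) (Fin n) F)) : Prop :=
  ∀ xs : List (Matrix (Fin n) (Fin n) F), xs.length = m → (∀ x ∈ xs, x ∈ V) →
    ∀ y ∈ V, iterComm xs y ∈ V

/-- A singularity certificate for a space `V` of `n × n` matrices: a matrix `a ∈ V`, a subspace `W`
of `V` and a chain `0 = U 0 ≤ U 1 ≤ ... ≤ U n ≠ 0` of subspaces of `F ^ n` such that `a` maps each
`U j` into itself and is nilpotent on `U n`, each `w ∈ W` maps `U (j + 1)` into `U j`, and every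
`x ∈ V` is `[K, a] + w` with `w ∈ W` and a matrix `K` normalising `V`. -/
def HasCertificate {F : Type} [Field F] {n : ℕ}
    (V : Submodule F (Matrix (Fin n) (Fin n) F)) : Prop :=
  ∃ a ∈ V, ∃ W ≤ V, ∃ U : Fin (n + 1) → Submodule F (Fin n → F),
    Monotone U ∧ U 0 = ⊥ ∧ U (Fin.last n) ≠ ⊥ ∧
    (∀ j, ∀ u ∈ U j, a.mulVec u ∈ U j) ∧
    (∀ u ∈ U (Fin.last n), (a ^ n).mulVec u = 0) ∧
    (∀ w ∈ W, ∀ j : Fin n, ∀ u ∈ U j.succ, w.mulVec u ∈ U j.castSucc) ∧
    ∀ x ∈ V, ∃ K : Matrix (Fin n) (Fin n) F, (∀ y ∈ V, K * y - y * K ∈ V) ∧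
      ∃ w ∈ W, x = (K * a - a * K) + w

/-- The generic element `∑ xᵢ Aᵢ` of the span of `A₁, ..., A_N`: a matrix of linear forms. -/
noncomputable def genericMatrix {F : Type} [Field F] {N n : ℕ}
    (A : Fin N → Matrix (Fin n) (Fin n) F) :
    Matrix (Fin n) (Fin n) (MvPolynomial (Fin N) F) :=
  Matrix.of fun p q => ∑ i, MvPolynomial.X i * MvPolynomial.C (A i p q)

/-- Rank over the field of rational functions of a matrix of polynomials over `F`. -/
noncomputable def symRank {F : Type} [Field F] {N m k : ℕ}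
    (A : Matrix (Fin m) (Fin k) (MvPolynomial (Fin N) F)) : ℕ :=
  (A.map (algebraMap (MvPolynomial (Fin N) F) (FractionRing (MvPolynomial (Fin N) F)))).rank

section aux

open Pool.Agent.H66.Edm Matrix

variable {F : Type} [Field F] {n : ℕ}

/-- a certificate makes `a + w` singular -/
lemma det_eq_zero_of_chain (a : Matrix (Fin n) (Fin n) F)
    (U : Fin (n + 1) → Submodule F (Fin n → F)) (hmono : Monotone U) (h0 : U 0 = ⊥)
    (hn : U (Fin.last n) ≠ ⊥) (ha : ∀ j, ∀ u ∈ U j, a.mulVec u ∈ U j)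
    (hnil : ∀ u ∈ U (Fin.last n), (a ^ n).mulVec u = 0) (w : Matrix (Fin n) (Fin n) F)
    (hw : ∀ j : Fin n, ∀ u ∈ U j.succ, w.mulVec u ∈ U j.castSucc) : (a + w).det = 0 := by
  classical
  -- the first nonzero member of the chain
  obtain ⟨j, hj0, hj1⟩ : ∃ j : Fin n, U j.castSucc = ⊥ ∧ U j.succ ≠ ⊥ := by
    by_contra hcon
    push Not at hcon
    apply hn
    have key : ∀ i : Fin (n + 1), U i = ⊥ := by
      intro i
      induction i using Fin.induction with
      | zero => exact h0
      | succ i ih => exact hcon i ih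
    exact key _
  obtain ⟨u, hu, hune⟩ := Submodule.exists_mem_ne_zero_of_ne_bot hj1
  have hpow : ∀ k, (a ^ k).mulVec u ∈ U j.succ := by
    intro k
    induction k with
    | zero => simpa using hu
    | succ k ih =>
      rw [pow_succ', ← Matrix.mulVec_mulVec]
      exact ha _ _ ih
  have hex : ∃ k, (a ^ k).mulVec u = 0 := ⟨n, hnil u (hmono (Fin.le_last _) hu)⟩
  let p := Nat.find hex
  have hp : (a ^ p).mulVec u = 0 := Nat.find_spec hex
  have hp0 : p ≠ 0 := by
    intro h
    rw [h] at hp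
    exact hune (by simpa using hp)
  obtain ⟨q, hq⟩ := Nat.exists_eq_succ_of_ne_zero hp0
  have hqne : (a ^ q).mulVec u ≠ 0 := Nat.find_min hex (by omega)
  rw [← Matrix.exists_mulVec_eq_zero_iff]
  refine ⟨(a ^ q).mulVec u, hqne, ?_⟩
  rw [Matrix.add_mulVec]
  have h1 : a.mulVec ((a ^ q).mulVec u) = 0 := by
    rw [Matrix.mulVec_mulVec, ← pow_succ', ← Nat.succ_eq_add_one, ← hq]
    exact hp
  have h2 : w.mulVec ((a ^ q).mulVec u) = 0 := by
    have := hw j _ (hpow q)
    rw [hj0] at this
    simpa using this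
  rw [h1, h2, add_zero]

end aux

/-- **Singularity certificates for commutator-closed matrix spaces.** -/
theorem result {F : Type} [Field F] [CharZero F] {N n : ℕ}
    (A : Fin N → Matrix (Fin n) (Fin n) F) :
    (HasCertificate (Submodule.span F (Set.range A)) → symRank (genericMatrix A) < n) ∧
    ∀ m : ℕ, 1 ≤ m → CommClosed m (Submodule.span F (Set.range A)) →
      symRank (genericMatrix A) < n → HasCertificate (Submodule.span F (Set.range A)) := by
  classical
  constructor
  · rintro ⟨a, ha, W, hW, U, hmono, h0, hn, haU, hnil, hWU, hdec⟩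
    exact Pool.Agent.H66.Edm.sound A a ha W
      (fun w hw => det_eq_zero_of_chain a U hmono h0 hn haU hnil w (hWU w hw)) hdec
  · intro m hm hV hrank
    have : NeZero m := ⟨by omega⟩
    set V := Submodule.span F (Set.range A) with hVdef
    obtain ⟨g, hg1, hgbr⟩ := Pool.Agent.H66.Edm.exists_family (m := m) V hV
    let e : Matrix (Fin n) (Fin n) F ≃ₐ[F] Module.End F (Fin n → F) := Matrix.toLinAlgEquiv'
    have he : ∀ (M : Matrix (Fin n) (Fin n) F) v, e M v = M.mulVec v := fun M v => by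
      simp [e, Matrix.toLinAlgEquiv'_apply]
    let g' : ZMod m → Submodule F (Module.End F (Fin n → F)) := fun i =>
      (g i).map (e.toLinearMap)
    have hmem : ∀ i M, M ∈ g i → e M ∈ g' i := fun i M hM => ⟨M, hM, rfl⟩
    have hg'br : ∀ i j, ∀ A ∈ g' i, ∀ B ∈ g' j, A * B - B * A ∈ g' (i + j) := by
      rintro i j _ ⟨A, hA, rfl⟩ _ ⟨B, hB, rfl⟩
      refine ⟨A * B - B * A, hgbr i j A hA B hB, ?_⟩
      simp
    have hsing : ∀ x ∈ g' 1, LinearMap.ker x ≠ ⊥ := by
      rintro _ ⟨M, hM, rfl⟩ hker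
      rw [hg1] at hM
      obtain ⟨v, hv⟩ := (Submodule.mem_span_range_iff_exists_fun F).1 hM
      have h1 : (genericMatrix A).map (MvPolynomial.eval v) = M := by
        rw [← hv]
        ext p q
        simp [genericMatrix, Matrix.sum_apply]
      have h2 := Pool.Agent.H20.Edm.rank_eval_le (genericMatrix A) v
      rw [h1] at h2
      have h3 : M.rank < n := lt_of_le_of_lt h2 hrank
      have h4 : M.det = 0 := by
        by_contra hne
        rw [Matrix.rank_of_det_ne_zero hne, Fintype.card_fin] at h3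
        exact lt_irrefl _ h3
      obtain ⟨u, hu, hu'⟩ := Matrix.exists_mulVec_eq_zero_iff.2 h4
      apply hu
      have h5 : u ∈ LinearMap.ker (e M) := by
        rw [LinearMap.mem_ker, he, hu']
      have h6 : u ∈ (⊥ : Submodule F (Fin n → F)) := hker ▸ h5
      simpa using h6
    obtain ⟨a, ha, W, hW, hdec, k, S, hS0, hSk, hSa, hSW, hSW', hnil⟩ :=
      Pool.Agent.H66.Edm.exists_cert g' hg'br hsing
    obtain ⟨U, hU0, hUn, hUmono, hUa, hUW⟩ :=
      Pool.Agent.H66.Edm.shorten a W k S hS0 hSa hSW hSW'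
    rw [Module.finrank_fin_fun] at hUn hnil
    obtain ⟨a₀, ha₀, rfl⟩ := ha
    rw [SetLike.mem_coe, hg1] at ha₀
    have hea : ∀ u, (e.toLinearMap a₀) u = a₀.mulVec u := fun u => he a₀ u
    refine ⟨a₀, ha₀, W.comap e.toLinearMap, ?_, fun j => U j, fun i j hij => hUmono hij, ?_, ?_,
      ?_, ?_, ?_, ?_⟩
    · intro w hw
      obtain ⟨w', hw', hww⟩ := hW hw
      rw [SetLike.mem_coe, hg1] at hw'
      have : w' = w := e.injective hww
      rwa [this] at hw'
    · simpa using hU0
    · simp only [Fin.val_last, hUn]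
      exact hSk
    · intro j u hu
      have := hUa j u hu
      rwa [hea] at this
    · intro u hu
      simp only [Fin.val_last, hUn] at hu
      have h1 := hnil u hu
      have h2 : (e.toLinearMap a₀) ^ n = e (a₀ ^ n) := by
        rw [map_pow]
        rfl
      rw [h2, he] at h1
      exact h1
    · intro w hw j u hu
      have := hUW _ hw j u (by simpa using hu)
      have h1 : (e.toLinearMap w) u = w.mulVec u := he w u
      rw [h1] at this
      simpa using this
    · intro x hx
      rw [← hg1] at hx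
      obtain ⟨κ, hκ, w, hw, hxw⟩ := hdec (e x) (hmem 1 x hx)
      obtain ⟨K, hK, rfl⟩ := hκ
      obtain ⟨w', hw', rfl⟩ := hW hw
      refine ⟨K, ?_, w', hw, ?_⟩
      · intro y hy
        rw [← hg1] at hy ⊢
        have := hgbr 0 1 K hK y hy
        rwa [zero_add] at this
      · apply e.injective
        rw [hxw]
        simp

end Pool.Agent.Results.MP_966f71_lc.CommutatorClosed
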