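import Pool.Agent.H22.QK.Fin1

set_option autoImplicit false

open Module

namespace Pool.Agent.H22.Old.PlanesOffLine

/-- An `s`-colouring of `PG(n-1, K)`: a map from the points of the projective space of `K^n`
to `s` colours. -/
abbrev Colouring (K : Type) [Field K] (n s : ℕ) : Type :=
  Projectivization K (Fin n → K) → Fin s

/-- The `s`-colouring `c` of `PG(n-1, K)` contains the `s₀`-colouring `c₀` of `PG(k-1, K)`
(where `s₀ ≤ s`): some injective linear map carries `c₀` to `c`. -/
def Contains {K : Type} [Field K] {k n s₀ s : ℕ} (h : s₀ ≤ s) (c : Colouring K n s)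
    (c₀ : Colouring K k s₀) : Prop :=
  ∃ (φ : (Fin k → K) →ₗ[K] (Fin n → K)) (hφ : Function.Injective φ),
    ∀ x, Fin.castLE h (c₀ x) = c (Projectivization.map φ hφ x)

/-- A linear subspace is homogeneous if some colour is taken by none of its points. -/
def Homogeneous {K : Type} [Field K] {n s : ℕ} (c : Colouring K n s)
    (U : Submodule K (Fin n → K)) : Prop :=
  ∃ i : Fin s, ∀ x : Projectivization K (Fin n → K), x.submodule ≤ U → c x ≠ i

/-- The colouring `c₀` of the plane `PG(2,2)` is constant outside some line. -/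
def ConstantOffLine {s₀ : ℕ} (c₀ : Colouring (ZMod 2) 3 s₀) : Prop :=
  ∃ L : Submodule (ZMod 2) (Fin 3 → ZMod 2), finrank (ZMod 2) L = 2 ∧
    ∀ x y : Projectivization (ZMod 2) (Fin 3 → ZMod 2),
      ¬ x.submodule ≤ L → ¬ y.submodule ≤ L → c₀ x = c₀ y

/-- The set of nonzero vectors of a given colour. -/
def cls {n s : ℕ} (c : Colouring (ZMod 2) n s) (i : Fin s) : Set (Fin n → ZMod 2) :=
  {v | ∃ hv : v ≠ 0, c (Projectivization.mk (ZMod 2) v hv) = i}

lemma zero_notMem_cls {n s : ℕ} (c : Colouring (ZMod 2) n s) (i : Fin s) :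
    (0 : Fin n → ZMod 2) ∉ cls c i := fun ⟨h, _⟩ => h rfl

lemma homogeneous_of_missed {n s : ℕ} (c : Colouring (ZMod 2) n s) (i : Fin s)
    (U : Submodule (ZMod 2) (Fin n → ZMod 2)) (h : ∀ u ∈ U, u ∉ cls c i) :
    Homogeneous c U := by
  refine ⟨i, fun x hx => ?_⟩
  induction x using Projectivization.ind with
  | h v hv =>
    intro hc
    rw [Projectivization.submodule_mk, Submodule.span_singleton_le_iff_mem] at hx
    exact h v hx ⟨hv, hc⟩

lemma zmod2_cases (a : ZMod 2) : a = 0 ∨ a = 1 := by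
  fin_cases a
  · exact Or.inl rfl
  · exact Or.inr rfl

/-- One point spans a homogeneous subspace if there are at least two colours. -/
lemma small_case {n s : ℕ} (hs : 2 ≤ s) (hn : 1 ≤ n) (c : Colouring (ZMod 2) n s) :
    ∃ U : Submodule (ZMod 2) (Fin n → ZMod 2), Homogeneous c U ∧ finrank (ZMod 2) U = 1 := by
  classical
  let v : Fin n → ZMod 2 := Pi.single ⟨0, hn⟩ 1
  have hv : v ≠ 0 := by
    intro h
    have := congrFun h ⟨0, hn⟩
    simp [v] at this
  have hex : ∃ i : Fin s, i ≠ c (Projectivization.mk (ZMod 2) v hv) := by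
    haveI : Nontrivial (Fin s) := Fin.nontrivial_iff_two_le.mpr hs
    exact exists_ne _
  obtain ⟨i, hi⟩ := hex
  refine ⟨Submodule.span (ZMod 2) {v}, homogeneous_of_missed c i _ ?_, finrank_span_singleton hv⟩
  intro u hu hc
  rw [Submodule.mem_span_singleton] at hu
  obtain ⟨a, rfl⟩ := hu
  rcases zmod2_cases a with rfl | rfl
  · rw [zero_smul] at hc
    exact zero_notMem_cls c i hc
  · rw [one_smul] at hc
    obtain ⟨h1, h2⟩ := hc
    exact hi h2.symm

/-- A configuration of four sets gives a copy of a plane that is constant off a line. -/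
lemma contains_of_config {s₀ s : ℕ} (h : s₀ ≤ s) (c₀ : Colouring (ZMod 2) 3 s₀)
    (hc₀ : ConstantOffLine c₀) {n : ℕ} (c : Colouring (ZMod 2) n s) :
    ∃ a i j k : Fin s, (∃ p x z, x ∈ cls c i ∧ z ∈ cls c j ∧ x + z ∈ cls c k ∧ p ∈ cls c a ∧
        p + x ∈ cls c a ∧ p + z ∈ cls c a ∧ p + x + z ∈ cls c a) → Contains h c c₀ := by
  classical
  obtain ⟨L, hL, hcon⟩ := hc₀
  let bL : Basis (Fin 2) (ZMod 2) L := finBasisOfFinrankEq (ZMod 2) L hL
  have hLtop : ∃ u3 : Fin 3 → ZMod 2, u3 ∉ L := by
    by_contra hcon2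
    push Not at hcon2
    have : L = ⊤ := by
      rw [eq_top_iff]; intro v _; exact hcon2 v
    rw [this, finrank_top] at hL
    simp at hL
  obtain ⟨u3, hu3⟩ := hLtop
  set u1 : Fin 3 → ZMod 2 := ((bL 0 : L) : Fin 3 → ZMod 2) with hu1
  set u2 : Fin 3 → ZMod 2 := ((bL 1 : L) : Fin 3 → ZMod 2) with hu2
  have hu1L : u1 ∈ L := (bL 0).2
  have hu2L : u2 ∈ L := (bL 1).2
  have hli2 : LinearIndependent (ZMod 2) ![u1, u2] := by
    have h1 := bL.linearIndependent.map' L.subtype (Submodule.ker_subtype L)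
    have h2 : (![u1, u2] : Fin 2 → (Fin 3 → ZMod 2)) = L.subtype ∘ bL := by
      funext t
      fin_cases t <;> rfl
    rw [h2]
    exact h1
  have hli : LinearIndependent (ZMod 2) ![u1, u2, u3] := by
    rw [Fintype.linearIndependent_iff]
    intro f hf
    rw [Fin.sum_univ_three] at hf
    simp only [Matrix.cons_val_zero, Matrix.cons_val_one, Matrix.cons_val_two,
      Matrix.head_cons, Matrix.tail_cons] at hf
    have hf2 : f 2 = 0 := by
      rcases zmod2_cases (f 2) with h0 | h1
      · exact h0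
      · exfalso
        rw [h1, one_smul] at hf
        apply hu3
        have : u3 = f 0 • u1 + f 1 • u2 := by
          have h2 : f 0 • u1 + f 1 • u2 + u3 + u3 = u3 := by rw [hf, zero_add]
          rw [add_assoc, ZModModule.add_self, add_zero] at h2
          exact h2.symm
        rw [this]
        exact L.add_mem (L.smul_mem _ hu1L) (L.smul_mem _ hu2L)
    rw [hf2, zero_smul, add_zero] at hf
    rw [Fintype.linearIndependent_iff] at hli2
    have h3 := hli2 ![f 0, f 1] (by
      rw [Fin.sum_univ_two]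
      simpa using hf)
    intro t
    fin_cases t
    · exact h3 0
    · exact h3 1
    · exact hf2
  have hcard : Fintype.card (Fin 3) = finrank (ZMod 2) (Fin 3 → ZMod 2) := by simp
  let e : Basis (Fin 3) (ZMod 2) (Fin 3 → ZMod 2) :=
    basisOfLinearIndependentOfCardEqFinrank hli hcard
  have he0 : e 0 = u1 := by simp [e]
  have he1 : e 1 = u2 := by simp [e]
  have he2 : e 2 = u3 := by simp [e]
  have hu1ne : u1 ≠ 0 := hli2.ne_zero 0
  have hu2ne : u2 ≠ 0 := hli2.ne_zero 1
  have hu3ne : u3 ≠ 0 := fun h0 => hu3 (h0 ▸ L.zero_mem)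
  have hu12ne : u1 + u2 ≠ 0 := by
    intro h0
    rw [Fintype.linearIndependent_iff] at hli2
    have h3 := hli2 ![1, 1] (by rw [Fin.sum_univ_two]; simpa using h0) 0
    simp at h3
  refine ⟨Fin.castLE h (c₀ (Projectivization.mk _ u3 hu3ne)),
    Fin.castLE h (c₀ (Projectivization.mk _ u1 hu1ne)),
    Fin.castLE h (c₀ (Projectivization.mk _ u2 hu2ne)),
    Fin.castLE h (c₀ (Projectivization.mk _ (u1 + u2) hu12ne)), ?_⟩
  rintro ⟨p, x, z, hx, hz, hxz, hp, hpx, hpz, hpxz⟩
  let φ : (Fin 3 → ZMod 2) →ₗ[ZMod 2] (Fin n → ZMod 2) := e.constr (ZMod 2) ![x, z, p]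
  have hφe : ∀ v : Fin 3 → ZMod 2, v = e.repr v 0 • u1 + e.repr v 1 • u2 + e.repr v 2 • u3 := by
    intro v
    conv_lhs => rw [← e.sum_repr v]
    rw [Fin.sum_univ_three, he0, he1, he2]
  have hφ1 : φ u1 = x := by rw [← he0]; simp [φ]
  have hφ2 : φ u2 = z := by rw [← he1]; simp [φ]
  have hφ3 : φ u3 = p := by rw [← he2]; simp [φ]
  -- all cases
  have key : ∀ v : Fin 3 → ZMod 2, ∀ hv : v ≠ 0, ∃ hw : φ v ≠ 0,
      Fin.castLE h (c₀ (Projectivization.mk _ v hv)) = c (Projectivization.mk _ (φ v) hw) := by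
    intro v hv
    have hoff : ∀ w : Fin 3 → ZMod 2, ∀ hw : w ≠ 0, w ∉ L →
        c₀ (Projectivization.mk _ w hw) = c₀ (Projectivization.mk _ u3 hu3ne) := by
      intro w hw hwL
      apply hcon
      · rw [Projectivization.submodule_mk, Submodule.span_singleton_le_iff_mem]; exact hwL
      · rw [Projectivization.submodule_mk, Submodule.span_singleton_le_iff_mem]; exact hu3
    have hmem3 : ∀ w ∈ L, w + u3 ∉ L := by
      intro w hw hcon3
      apply hu3
      have := L.add_mem hw hcon3
      rwa [← add_assoc, ZModModule.add_self, zero_add] at this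
    have hv' := hφe v
    rcases zmod2_cases (e.repr v 2) with h2 | h2
    · rw [h2, zero_smul, add_zero] at hv'
      rcases zmod2_cases (e.repr v 0) with h0 | h0 <;> rcases zmod2_cases (e.repr v 1) with h1 | h1
      · rw [h0, h1, zero_smul, zero_smul, add_zero] at hv'
        exact absurd hv' hv
      · rw [h0, h1, zero_smul, one_smul, zero_add] at hv'
        subst hv'
        obtain ⟨hw, hc⟩ := hz
        have hw' : φ u2 ≠ 0 := by rw [hφ2]; exact hw
        refine ⟨hw', ?_⟩
        rw [← hc]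
        congr 1
        simp only [hφ2]
      · rw [h0, h1, zero_smul, one_smul, add_zero] at hv'
        subst hv'
        obtain ⟨hw, hc⟩ := hx
        have hw' : φ u1 ≠ 0 := by rw [hφ1]; exact hw
        refine ⟨hw', ?_⟩
        rw [← hc]
        congr 1
        simp only [hφ1]
      · rw [h0, h1, one_smul, one_smul] at hv'
        subst hv'
        obtain ⟨hw, hc⟩ := hxz
        have hφ12 : φ (u1 + u2) = x + z := by rw [map_add, hφ1, hφ2]
        have hw' : φ (u1 + u2) ≠ 0 := by rw [hφ12]; exact hw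
        refine ⟨hw', ?_⟩
        rw [← hc]
        congr 1
        simp only [hφ12]
    · have hvL : v ∉ L := by
        intro hvL
        rw [h2, one_smul] at hv'
        apply hmem3 (e.repr v 0 • u1 + e.repr v 1 • u2)
          (L.add_mem (L.smul_mem _ hu1L) (L.smul_mem _ hu2L))
        rw [← hv']
        exact hvL
      have hφv : φ v = e.repr v 0 • x + e.repr v 1 • z + p := by
        conv_lhs => rw [hv']
        rw [map_add, map_add, map_smul, map_smul, map_smul, hφ1, hφ2, hφ3, h2, one_smul]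
      have hmem : φ v ∈ cls c (Fin.castLE h (c₀ (Projectivization.mk _ u3 hu3ne))) := by
        rw [hφv]
        rcases zmod2_cases (e.repr v 0) with h0 | h0 <;>
          rcases zmod2_cases (e.repr v 1) with h1 | h1
        · rw [h0, h1, zero_smul, zero_smul, zero_add, zero_add]; exact hp
        · rw [h0, h1, zero_smul, one_smul, zero_add, add_comm]; exact hpz
        · rw [h0, h1, zero_smul, one_smul, add_zero, add_comm]; exact hpx
        · rw [h0, h1, one_smul, one_smul, add_comm, ← add_assoc]; exact hpxz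
      obtain ⟨hw, hc⟩ := hmem
      refine ⟨hw, ?_⟩
      rw [hoff v hv hvL, hc]
  have hinj : Function.Injective φ := by
    rw [← LinearMap.ker_eq_bot, LinearMap.ker_eq_bot']
    intro v hv0
    by_contra hv
    obtain ⟨hw, -⟩ := key v hv
    exact hw hv0
  refine ⟨φ, hinj, fun y => ?_⟩
  induction y using Projectivization.ind with
  | h v hv =>
    obtain ⟨hw, hc⟩ := key v hv
    rw [Projectivization.map_mk, hc]

/-- The multicoloured Erdos-Hajnal property of `F_2`-geometries for all colourings of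
`PG(2,2)` which are constant outside a line, with absolute constants. -/
theorem result : ∃ δ C : ℝ, 0 < δ ∧ 0 < C ∧ ∀ (s₀ s : ℕ) (h : s₀ ≤ s), 2 ≤ s →
    ∀ c₀ : Colouring (ZMod 2) 3 s₀, ConstantOffLine c₀ →
    ∀ (n : ℕ) (c : Colouring (ZMod 2) n s), ¬ Contains h c c₀ →
      ∃ U : Submodule (ZMod 2) (Fin n → ZMod 2), Homogeneous c U ∧
        C * (n : ℝ) ^ δ ≤ (finrank (ZMod 2) U : ℝ) := by
  classical
  obtain ⟨C, hC, hmain⟩ := Pool.Agent.H22.QK.ramsey_poly
  have hδ : (0 : ℝ) < 1 / (C : ℝ) := by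
    have : (0 : ℝ) < C := by exact_mod_cast hC
    positivity
  refine ⟨1 / (C : ℝ), 1 / 4, hδ, by norm_num, ?_⟩
  intro s₀ s h hs c₀ hc₀ n c hfree
  rcases Nat.eq_zero_or_pos n with rfl | hn
  · refine ⟨⊥, homogeneous_of_missed c ⟨0, by omega⟩ _ ?_, ?_⟩
    · intro u hu
      rw [Submodule.mem_bot] at hu
      rw [hu]
      exact zero_notMem_cls c _
    · rw [Nat.cast_zero, Real.zero_rpow hδ.ne', mul_zero]
      exact Nat.cast_nonneg _
  · obtain ⟨d, hd, hd2, hd3⟩ := Pool.Agent.H22.QK.real_bound hC hn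
    rcases hd2 with rfl | hd2
    · obtain ⟨U, hU, hU1⟩ := small_case hs hn c
      refine ⟨U, hU, ?_⟩
      rw [hU1]
      exact hd3
    · obtain ⟨a, i, j, k, hcfg⟩ := contains_of_config h c₀ hc₀ c
      rcases hmain n d hd hd2 (cls c a) (cls c i) (cls c j) (cls c k)
        (zero_notMem_cls c a) (zero_notMem_cls c i) (zero_notMem_cls c j)
        (zero_notMem_cls c k) with ⟨U, hU, hmiss⟩ | hconf
      · refine ⟨U, ?_, by rw [hU]; exact hd3⟩
        rcases hmiss with h1 | h1 | h1 | h1
        · exact homogeneous_of_missed c _ U h1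
        · exact homogeneous_of_missed c _ U h1
        · exact homogeneous_of_missed c _ U h1
        · exact homogeneous_of_missed c _ U h1
      · exact absurd (hcfg hconf) hfree

end Pool.Agent.H22.Old.PlanesOffLine
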